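import Pool.Agent.MP_de7343_al.Mg.Main

namespace Pool.Agent.Results.MP_de7343_al.Dense

open Pool.Agent.MP_de7343_al

universe u

/-- For every prime `p` and every non-abelian free pro-`p` group `F` (of arbitrary rank), the set of
`r ∈ F` with `cd (F / (r)) ≤ 2` is dense in `F`. -/
theorem result (p : ℕ) (hp : p.Prime) (F : Type u) [Group F] [TopologicalSpace F]
    [IsTopologicalGroup F] (hF : IsFreeProP p F) (hna : ∃ a b : F, a * b ≠ b * a) :
    Dense {r : F | cd p (F ⧸ closedNormalClosure r) ≤ 2} := by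
  have : Fact p.Prime := ⟨hp⟩
  obtain ⟨hP, X, ι, hconv, huniv⟩ := hF
  have hB : IsBasis p ι := ⟨hP, hconv, huniv⟩
  rw [dense_iff_inter_open]
  rintro W hW ⟨g, hg⟩
  obtain ⟨N, hN, -⟩ := hP.pp ((fun u => g * u) ⁻¹' W) (hW.preimage (by fun_prop)) (by simpa using hg)
  obtain ⟨r, hrN, hr⟩ := hB.exists_good_relator hna g N
  exact ⟨r, by simpa using hN hrN, hr⟩

end Pool.Agent.Results.MP_de7343_al.Dense
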